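import Pool.Agent.Helper50.KP.Goals

/-!
# Packet KP-VAL: the values of the gates of a circuit
-/

set_option autoImplicit false

namespace Pool.Agent.Helper69.KP

open Pool.Agent.Helper50.KP

theorem length_vals (C : ℕ → Gate) (x : ℕ → Bool) (i : ℕ) : (vals C x i).length = i := by
  induction i with
  | zero => rfl
  | succ n ih => rw [vals, List.length_append, ih]; rfl

theorem getD_vals (C : ℕ → Gate) (x : ℕ → Bool) (i j : ℕ) (h : j < i) :
    (vals C x i).getD j false = val C x j := by
  induction i with
  | zero => exact absurd h (Nat.not_lt_zero _)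
  | succ n ih =>
    rw [vals]
    rcases Nat.lt_succ_iff_lt_or_eq.1 h with h1 | h1
    · rw [List.getD_append _ _ _ _ (by rw [length_vals]; exact h1)]
      exact ih h1
    · subst h1
      rw [List.getD_append_right _ _ _ _ (by rw [length_vals]), length_vals, Nat.sub_self]
      rfl

theorem gVAL : Pool.Agent.Helper50.KP.VAL := by
  refine ⟨?_, ?_⟩
  · intro C x i l h
    rw [val, h]
    rfl
  · intro C x i j k h hj hk
    rw [val, h, Gate.ev, getD_vals C x i j hj, getD_vals C x i k hk]

end Pool.Agent.Helper69.KP
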